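import Pool.Agent.Lib.Pd665d0.Proof

/-!
# The full strong law for random sets of bounded dimension in B-convex spaces

Definitions are in `Pool/Agent/Lib/Pd665d0/Basic.lean`, the proof in
`Pool/Agent/Lib/Pd665d0/Proof.lean`.
-/

namespace Pool.Agent.Results.MP_d665d0_pr.EquidimSLLN

open Pool.Agent.Lib.Pd665d0

universe u v

/-- In a B-convex Banach space the full form of the strong law of large numbers holds for the class
of random sets all of whose values have dimension at most `d` (in particular: exactly `d`). -/
theorem result (X : Type u) [NormedAddCommGroup X] [NormedSpace ℝ X] [CompleteSpace X]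
    (hX : IsBConvex X) (d : ℕ) : FullSLLN.{u, v} {A : BC X | A.dim ≤ d} :=
  main_theorem X hX d

end Pool.Agent.Results.MP_d665d0_pr.EquidimSLLN
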